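import Pool.Agent.Helper46.FQ.Par

/-!
# Project FQ (MP_0f6f3f_an), sources: the big cell, matrix part

`H = Hᵀ`, `a_t = exp(tH)`. `Cell H`: the products `p * r` with `a_t p a_t⁻¹ → 1` and `r ∈ Pg H` (`a_t⁻¹ r a_t` converges), `t → ∞`. The cell is given by the nonvanishing of finitely many
minors (`cell_iff`), the factors are unique and continuous.
-/

set_option autoImplicit false

open Matrix Filter Topology

namespace Pool.Agent.Helper2.FQ

open Pool.Agent.Helper96.SA Pool.Agent.Helper46.FQ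

variable {N : ℕ}

/-! ### Block minors -/

/-- the block of the indices with `c ≤ h i` of `A`, completed by the identity -/
noncomputable def Mc (h : Fin N → ℝ) (c : ℝ) (A : Mat N) : Mat N :=
  Matrix.of fun i j => if c ≤ h i ∧ c ≤ h j then A i j else if i = j then 1 else 0

theorem Mc_apply (h : Fin N → ℝ) (c : ℝ) (A : Mat N) (i j : Fin N) :
    Mc h c A i j = if c ≤ h i ∧ c ≤ h j then A i j else if i = j then 1 else 0 := rfl

theorem Mc_one (h : Fin N → ℝ) (c : ℝ) : Mc h c 1 = 1 := by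
  ext i j
  rw [Mc_apply, one_apply]
  split_ifs <;> rfl

theorem continuous_Mc (h : Fin N → ℝ) (c : ℝ) : Continuous (Mc h c) := by
  refine continuous_matrix fun i j => ?_
  simp only [Mc_apply]
  split_ifs
  · exact continuous_id.matrix_elem i j
  · exact continuous_const
  · exact continuous_const

theorem Mc_mul {h : Fin N → ℝ} {c : ℝ} {A B : Mat N}
    (hAB : ∀ i k j, c ≤ h i → c ≤ h j → h k < c → A i k * B k j = 0) :
    Mc h c (A * B) = Mc h c A * Mc h c B := by
  ext i j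
  rw [mul_apply]
  by_cases hi : c ≤ h i
  · by_cases hj : c ≤ h j
    · rw [Mc_apply, if_pos ⟨hi, hj⟩, mul_apply]
      refine Finset.sum_congr rfl fun k _ => ?_
      by_cases hk : c ≤ h k
      · rw [Mc_apply, if_pos ⟨hi, hk⟩, Mc_apply, if_pos ⟨hk, hj⟩]
      · rw [hAB i k j hi hj (not_le.1 hk), Mc_apply, if_neg (fun h' => hk h'.2), if_neg, zero_mul]
        rintro rfl
        exact hk hi
    · have h1 : ∀ k, Mc h c B k j = if k = j then 1 else 0 := fun k => by
        rw [Mc_apply, if_neg (fun h' => hj h'.2)]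
      simp only [h1, mul_ite, mul_one, mul_zero, Finset.sum_ite_eq', Finset.mem_univ, if_true]
      have hne : ¬ (c ≤ h i ∧ c ≤ h j) := fun h' => hj h'.2
      rw [Mc_apply, Mc_apply, if_neg hne, if_neg hne]
  · have h1 : ∀ k, Mc h c A i k = if i = k then 1 else 0 := fun k => by
      rw [Mc_apply, if_neg (fun h' => hi h'.1)]
    simp only [h1, ite_mul, one_mul, zero_mul, Finset.sum_ite_eq, Finset.mem_univ, if_true]
    have hne : ¬ (c ≤ h i ∧ c ≤ h j) := fun h' => hi h'.1
    rw [Mc_apply, Mc_apply, if_neg hne, if_neg hne]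

/-- the product of the block minors -/
noncomputable def mnr (h : Fin N → ℝ) (A : Mat N) : ℝ := ∏ j, (Mc h (h j) A).det

theorem continuous_mnr (h : Fin N → ℝ) : Continuous (mnr h) := by
  unfold mnr
  exact continuous_finsetProd _ fun j _ => (continuous_Mc h (h j)).matrix_det

theorem mnr_one (h : Fin N → ℝ) : mnr h 1 = 1 := by
  unfold mnr
  simp only [Mc_one, det_one, Finset.prod_const_one]

theorem mnr_ne {h : Fin N → ℝ} {A : Mat N} : mnr h A ≠ 0 ↔ ∀ j, (Mc h (h j) A).det ≠ 0 := by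
  unfold mnr
  rw [Finset.prod_ne_zero_iff]
  simp

/-- the columns of the upper factor -/
noncomputable def Wf (h : Fin N → ℝ) (A : Mat N) : Mat N := Matrix.of fun i j => (Mc h (h j) A)⁻¹ i j

/-- the lower factor -/
noncomputable def Pf (h : Fin N → ℝ) (A : Mat N) : Mat N := A * Wf h A

theorem Wf_apply (h : Fin N → ℝ) (A : Mat N) (i j : Fin N) : Wf h A i j = (Mc h (h j) A)⁻¹ i j := rfl

theorem Wf_zero {h : Fin N → ℝ} {A : Mat N} (hA : mnr h A ≠ 0) {i j : Fin N} (hij : h i < h j) : Wf h A i j = 0 := by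
  have h1 := mnr_ne.1 hA j
  have h2 : (Mc h (h j) A * (Mc h (h j) A)⁻¹) i j = (1 : Mat N) i j := by
    rw [mul_nonsing_inv _ (isUnit_iff_ne_zero.2 h1)]
  rw [mul_apply] at h2
  have h3 : ∀ k, Mc h (h j) A i k = if i = k then 1 else 0 := fun k => by
    rw [Mc_apply, if_neg (fun h' => absurd h'.1 (not_le.2 hij))]
  simp only [h3, ite_mul, one_mul, zero_mul, Finset.sum_ite_eq, Finset.mem_univ, if_true] at h2
  rw [Wf_apply, h2, one_apply_ne]
  rintro rfl
  exact lt_irrefl _ hij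

theorem Pf_of_le {h : Fin N → ℝ} {A : Mat N} (hA : mnr h A ≠ 0) {i j : Fin N} (hij : h j ≤ h i) :
    Pf h A i j = (1 : Mat N) i j := by
  have h1 := mnr_ne.1 hA j
  have h2 : (Mc h (h j) A * (Mc h (h j) A)⁻¹) i j = (1 : Mat N) i j := by
    rw [mul_nonsing_inv _ (isUnit_iff_ne_zero.2 h1)]
  rw [← h2, Pf, mul_apply, mul_apply]
  refine Finset.sum_congr rfl fun k _ => ?_
  rw [← Wf_apply]
  by_cases hk : h j ≤ h k
  · rw [Mc_apply, if_pos ⟨hij, hk⟩]
  · rw [Wf_zero hA (not_le.1 hk), mul_zero, mul_zero]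

theorem continuousOn_Wf (h : Fin N → ℝ) : ContinuousOn (Wf h) {A | mnr h A ≠ 0} := by
  refine continuousOn_pi.2 fun i => continuousOn_pi.2 fun j => ?_
  show ContinuousOn (fun A => (Mc h (h j) A)⁻¹ i j) _
  have h1 : ContinuousOn (fun A : Mat N => ((Mc h (h j) A).det)⁻¹ * (Mc h (h j) A).adjugate i j) {A | mnr h A ≠ 0} := by
    refine ContinuousOn.mul ?_ ?_
    · refine ContinuousOn.inv₀ (continuous_Mc h (h j)).matrix_det.continuousOn fun A hA => ?_
      exact mnr_ne.1 hA j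
    · exact ((continuous_Mc h (h j)).matrix_adjugate.matrix_elem i j).continuousOn
  refine h1.congr fun A hA => ?_
  rw [Matrix.inv_def, Matrix.smul_apply, smul_eq_mul, Ring.inverse_eq_inv']

theorem continuousOn_Pf (h : Fin N → ℝ) : ContinuousOn (Pf h) {A | mnr h A ≠ 0} :=
  continuousOn_id.mul (continuousOn_Wf h)

/-! ### Lower unipotent matrices have determinant one -/

theorem det_of_low {h : Fin N → ℝ} {A : Mat N} (hA : ∀ i j, h j ≤ h i → A i j = (1 : Mat N) i j) : A.det = 1 := by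
  have h1 : ∀ t : ℝ, (diagonal (fun i => Real.exp (t * h i)) * A * diagonal (fun i => Real.exp (-t * h i))).det = A.det := by
    intro t
    rw [det_mul, det_mul, det_diagonal, det_diagonal]
    have h2 : (∏ i, Real.exp (t * h i)) * (∏ i, Real.exp (-t * h i)) = 1 := by
      rw [← Finset.prod_mul_distrib]
      refine Finset.prod_eq_one fun i _ => ?_
      rw [← Real.exp_add]
      have : t * h i + -t * h i = 0 := by ring
      rw [this, Real.exp_zero]
    calc (∏ i, Real.exp (t * h i)) * A.det * (∏ i, Real.exp (-t * h i))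
        = ((∏ i, Real.exp (t * h i)) * (∏ i, Real.exp (-t * h i))) * A.det := by ring
      _ = A.det := by rw [h2, one_mul]
  have h3 : Tendsto (fun t : ℝ => diagonal (fun i => Real.exp (t * h i)) * A * diagonal (fun i => Real.exp (-t * h i)))
      atTop (𝓝 1) := by
    refine tendsto_pi_nhds.2 fun i => tendsto_pi_nhds.2 fun j => ?_
    have h4 : (fun t : ℝ => (diagonal (fun i => Real.exp (t * h i)) * A * diagonal (fun i => Real.exp (-t * h i))) i j) =
        fun t : ℝ => Real.exp (t * (h i - h j)) * A i j := by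
      funext t
      rw [mul_diagonal, diagonal_mul]
      have : Real.exp (t * (h i - h j)) = Real.exp (t * h i) * Real.exp (-t * h j) := by
        rw [← Real.exp_add]
        congr 1
        ring
      rw [this]
      ring
    rw [h4]
    by_cases hij : h j ≤ h i
    · rw [hA i j hij, one_apply]
      by_cases he : i = j
      · rw [if_pos he, he]
        simp only [sub_self, mul_zero, Real.exp_zero, mul_one]
        exact tendsto_const_nhds
      · rw [if_neg he]
        simp only [mul_zero]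
        exact tendsto_const_nhds
    · have h5 : Tendsto (fun t : ℝ => Real.exp (t * (h i - h j))) atTop (𝓝 0) := by
        refine Real.tendsto_exp_atBot.comp ?_
        exact tendsto_id.atTop_mul_const_of_neg (by linarith [not_le.1 hij])
      have h6 := h5.mul_const (A i j)
      rw [zero_mul] at h6
      rw [one_apply_ne (by rintro rfl; exact hij le_rfl)]
      exact h6
  have h7 : Tendsto (fun t : ℝ => (diagonal (fun i => Real.exp (t * h i)) * A * diagonal (fun i => Real.exp (-t * h i))).det)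
      atTop (𝓝 (det 1)) := (continuous_id.matrix_det.tendsto (1 : Mat N)).comp h3
  simp only [h1] at h7
  rw [tendsto_nhds_unique tendsto_const_nhds h7, det_one]

/-! ### The cell -/

/-- The big cell of `H`. -/
def Cell (H : Mat N) : Set (GL (Fin N) ℝ) :=
  {g | ∃ (p : Pg (-H)) (r : Pg H), Dh (-H) p = 1 ∧ g = (p : GL (Fin N) ℝ) * (r : GL (Fin N) ℝ)}

theorem neg_diag {H U : Mat N} {h : Fin N → ℝ} (hH : H = U * diagonal h * Uᵀ) :
    -H = U * diagonal (fun i => -h i) * Uᵀ := by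
  have e : diagonal (fun i => -h i) = -diagonal h := by
    ext i j
    rw [Matrix.neg_apply, diagonal_apply, diagonal_apply]
    split_ifs <;> simp
  rw [e, mul_neg, neg_mul, hH]

/-- The factors in coordinates. -/
theorem low_iff {H U : Mat N} {h : Fin N → ℝ} (hU1 : Uᵀ * U = 1) (hU2 : U * Uᵀ = 1) (hH : H = U * diagonal h * Uᵀ)
    {g : GL (Fin N) ℝ} : (∃ hg : g ∈ Pg (-H), Dh (-H) ⟨g, hg⟩ = 1) ↔
      ∀ i j, h j ≤ h i → (Uᵀ * (g : Mat N) * U) i j = (1 : Mat N) i j := by
  have hH' := neg_diag hH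
  constructor
  · rintro ⟨hg, hD⟩ i j hij
    rcases lt_or_eq_of_le hij with hij | hij
    · have h1 := (mem_Pg_iff hU1 hU2 hH').1 hg i j (neg_lt_neg hij)
      rw [h1, one_apply_ne]
      rintro rfl
      exact lt_irrefl _ hij
    · have h1 := Dh_coe hU1 hU2 hH' ⟨g, hg⟩
      rw [hD, Units.val_one] at h1
      have h2 : bd (fun i => -h i) (Uᵀ * (g : Mat N) * U) = 1 := by
        calc bd (fun i => -h i) (Uᵀ * (g : Mat N) * U)
            = Uᵀ * (U * bd (fun i => -h i) (Uᵀ * (g : Mat N) * U) * Uᵀ) * U := (back' hU1 _).symm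
          _ = 1 := by rw [← h1, mul_one, hU1]
      have h3 := congrFun (congrFun h2 i) j
      rw [bd_apply, if_pos (by rw [hij])] at h3
      exact h3
  · intro hz
    have hg : g ∈ Pg (-H) := by
      rw [mem_Pg_iff hU1 hU2 hH']
      intro i j hij
      have hij' : h j < h i := neg_lt_neg_iff.1 hij
      rw [hz i j hij'.le, one_apply_ne]
      rintro rfl
      exact lt_irrefl _ hij'
    refine ⟨hg, Units.ext ?_⟩
    rw [Dh_coe hU1 hU2 hH' ⟨g, hg⟩, Units.val_one]
    have h2 : bd (fun i => -h i) (Uᵀ * (g : Mat N) * U) = 1 := by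
      ext i j
      rw [bd_apply]
      by_cases hij : h i = h j
      · rw [if_pos (by rw [hij])]
        exact hz i j hij.ge
      · rw [if_neg (fun h' => hij (neg_injective h')), one_apply_ne]
        rintro rfl
        exact hij rfl
    show U * bd (fun i => -h i) (Uᵀ * (g : Mat N) * U) * Uᵀ = 1
    rw [h2, mul_one, hU2]

/-- **The cell is the set where the minors do not vanish.** -/
theorem cell_iff {H U : Mat N} {h : Fin N → ℝ} (hU1 : Uᵀ * U = 1) (hU2 : U * Uᵀ = 1) (hH : H = U * diagonal h * Uᵀ)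
    {g : GL (Fin N) ℝ} : g ∈ Cell H ↔ mnr h (Uᵀ * (g : Mat N) * U) ≠ 0 := by
  have conj : ∀ x y : Mat N, Uᵀ * (x * y) * U = (Uᵀ * x * U) * (Uᵀ * y * U) := by
    intro x y
    calc Uᵀ * (x * y) * U = Uᵀ * x * 1 * y * U := by simp only [mul_assoc, mul_one, one_mul]
      _ = Uᵀ * x * (U * Uᵀ) * y * U := by rw [hU2]
      _ = _ := by simp only [mul_assoc]
  constructor
  · rintro ⟨p, r, hp, rfl⟩
    rw [mnr_ne]
    intro j
    set c := h j
    have hlow : ∀ x : GL (Fin N) ℝ, x ∈ Pg (-H) → ∀ i k, h k < h i → (Uᵀ * (x : Mat N) * U) i k = 0 := by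
      intro x hx i k hik
      exact (mem_Pg_iff hU1 hU2 (neg_diag hH)).1 hx i k (neg_lt_neg hik)
    have hup : ∀ x : GL (Fin N) ℝ, x ∈ Pg H → ∀ i k, h i < h k → (Uᵀ * (x : Mat N) * U) i k = 0 :=
      fun x hx => (mem_Pg_iff hU1 hU2 hH).1 hx
    have e1 : Mc h c (Uᵀ * (((p : GL (Fin N) ℝ) * (r : GL (Fin N) ℝ) : GL (Fin N) ℝ) : Mat N) * U) =
        Mc h c (Uᵀ * ((p : GL (Fin N) ℝ) : Mat N) * U) * Mc h c (Uᵀ * ((r : GL (Fin N) ℝ) : Mat N) * U) := by
      rw [Units.val_mul, conj]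
      refine Mc_mul fun i k l hi _ hk => ?_
      rw [hlow _ p.2 i k (lt_of_lt_of_le hk hi), zero_mul]
    have e2 : Mc h c (Uᵀ * ((p : GL (Fin N) ℝ) : Mat N) * U) *
        Mc h c (Uᵀ * (((p : GL (Fin N) ℝ)⁻¹ : GL (Fin N) ℝ) : Mat N) * U) = 1 := by
      rw [← Mc_mul fun i k l hi _ hk => by rw [hlow _ p.2 i k (lt_of_lt_of_le hk hi), zero_mul], ← conj, Units.mul_inv,
        mul_one, hU1, Mc_one]
    have e3 : Mc h c (Uᵀ * (((r : GL (Fin N) ℝ)⁻¹ : GL (Fin N) ℝ) : Mat N) * U) *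
        Mc h c (Uᵀ * ((r : GL (Fin N) ℝ) : Mat N) * U) = 1 := by
      rw [← Mc_mul fun i k l _ hl hk => by rw [hup _ r.2 k l (lt_of_lt_of_le hk hl), mul_zero], ← conj, Units.inv_mul,
        mul_one, hU1, Mc_one]
    rw [e1, det_mul]
    refine mul_ne_zero ?_ ?_
    · have := congrArg det e2
      rw [det_mul, det_one] at this
      exact left_ne_zero_of_mul_eq_one this
    · have := congrArg det e3
      rw [det_mul, det_one] at this
      exact right_ne_zero_of_mul_eq_one this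
  · intro hm
    set A := Uᵀ * (g : Mat N) * U with hA
    have hdet : (U * Pf h A * Uᵀ).det = 1 := by
      have e1 := congrArg det hU2
      rw [det_mul, det_one] at e1
      rw [det_mul, det_mul, det_of_low fun i j hij => Pf_of_le hm hij, mul_one, e1]
    have hdu : IsUnit (U * Pf h A * Uᵀ).det := by rw [hdet]; exact isUnit_one
    set p : GL (Fin N) ℝ := Matrix.nonsingInvUnit _ hdu with hp
    have hpc : (p : Mat N) = U * Pf h A * Uᵀ := rfl
    have hpl : ∃ hg : p ∈ Pg (-H), Dh (-H) ⟨p, hg⟩ = 1 := by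
      rw [low_iff hU1 hU2 hH]
      intro i j hij
      rw [hpc, back' hU1]
      exact Pf_of_le hm hij
    have hgw : (g : Mat N) * (U * Wf h A * Uᵀ) = (p : Mat N) := by
      rw [hpc, Pf, hA]
      calc (g : Mat N) * (U * Wf h (Uᵀ * (g : Mat N) * U) * Uᵀ)
          = (U * Uᵀ) * (g : Mat N) * (U * Wf h (Uᵀ * (g : Mat N) * U) * Uᵀ) := by rw [hU2, one_mul]
        _ = _ := by simp only [mul_assoc]
    have hw : ((g⁻¹ * p : GL (Fin N) ℝ) : Mat N) = U * Wf h A * Uᵀ := by
      rw [Units.val_mul, ← hgw, ← mul_assoc, Units.inv_mul, one_mul]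
    have hwP : g⁻¹ * p ∈ Pg H := by
      rw [mem_Pg_iff hU1 hU2 hH]
      intro i j hij
      rw [hw, back' hU1]
      exact Wf_zero hm hij
    obtain ⟨hpm, hpD⟩ := hpl
    refine ⟨⟨p, hpm⟩, ⟨(g⁻¹ * p)⁻¹, (Pg H).inv_mem hwP⟩, hpD, ?_⟩
    show g = p * (g⁻¹ * p)⁻¹
    group

theorem isOpen_cell {H : Mat N} (hs : Hᵀ = H) : IsOpen (Cell H) := by
  obtain ⟨U, h, hU1, hU2, hH⟩ := exists_diag hs
  have h1 : Cell H = {g : GL (Fin N) ℝ | mnr h (Uᵀ * (g : Mat N) * U) ≠ 0} := by
    ext g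
    exact cell_iff hU1 hU2 hH
  rw [h1]
  have h2 : Continuous fun A : Mat N => Uᵀ * A * U := by fun_prop
  exact isOpen_ne_fun ((continuous_mnr h).comp (h2.comp Units.continuous_val)) continuous_const

theorem one_mem_cell (H : Mat N) : (1 : GL (Fin N) ℝ) ∈ Cell H :=
  ⟨1, 1, map_one _, by simp⟩

/-- An element of `Pg H` and of `Pg (-H)` is its own limit. -/
theorem Dh_of_both {H : Mat N} (hs : Hᵀ = H) {g : GL (Fin N) ℝ} (h1 : g ∈ Pg H) (h2 : g ∈ Pg (-H)) :
    Dh (-H) ⟨g, h2⟩ = g := by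
  obtain ⟨U, h, hU1, hU2, hH⟩ := exists_diag hs
  have h3 : (g : Mat N) * H = H * (g : Mat N) := by
    refine commute_of_zero hU1 hU2 hH fun i j hij => ?_
    rcases lt_or_gt_of_ne hij with h' | h'
    · exact (mem_Pg_iff hU1 hU2 hH).1 h1 i j h'
    · exact (mem_Pg_iff hU1 hU2 (neg_diag hH)).1 h2 i j (neg_lt_neg h')
  exact Dh_of_commute ⟨g, h2⟩ (by
    show (g : Mat N) * (-H) = (-H) * (g : Mat N)
    rw [mul_neg, neg_mul, h3])

/-- **Uniqueness of the factors.** -/
theorem cell_uniq {H : Mat N} (hs : Hᵀ = H) {p p' : Pg (-H)} {r r' : Pg H} (hp : Dh (-H) p = 1) (hp' : Dh (-H) p' = 1)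
    (h : (p : GL (Fin N) ℝ) * (r : GL (Fin N) ℝ) = (p' : GL (Fin N) ℝ) * (r' : GL (Fin N) ℝ)) : p = p' ∧ r = r' := by
  have e1 : ((p'⁻¹ * p : Pg (-H)) : GL (Fin N) ℝ) = ((r' * r⁻¹ : Pg H) : GL (Fin N) ℝ) := by
    show (p' : GL (Fin N) ℝ)⁻¹ * (p : GL (Fin N) ℝ) = (r' : GL (Fin N) ℝ) * (r : GL (Fin N) ℝ)⁻¹
    rw [inv_mul_eq_iff_eq_mul, ← mul_assoc, ← h, mul_assoc, mul_inv_cancel, mul_one]
  have e2 : Dh (-H) (p'⁻¹ * p) = 1 := by rw [map_mul, map_inv, hp, hp', inv_one, one_mul]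
  have e3 := Dh_of_both hs (g := ((p'⁻¹ * p : Pg (-H)) : GL (Fin N) ℝ)) (by rw [e1]; exact (r' * r⁻¹).2) (p'⁻¹ * p).2
  have e4 : ((p'⁻¹ * p : Pg (-H)) : GL (Fin N) ℝ) = 1 := by
    rw [← e3]
    exact e2
  have e5 : p = p' := by
    have h1 : (p' : GL (Fin N) ℝ)⁻¹ * (p : GL (Fin N) ℝ) = 1 := e4
    exact Subtype.ext (inv_mul_eq_one.1 h1).symm
  refine ⟨e5, ?_⟩
  rw [e5] at h
  exact Subtype.ext (mul_left_cancel h)

/-- the lower factor -/
noncomputable def pF (H : Mat N) (g : Cell H) : Pg (-H) := g.2.choose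

/-- the upper factor -/
noncomputable def rF (H : Mat N) (g : Cell H) : Pg H := g.2.choose_spec.choose

theorem pF_Dh (H : Mat N) (g : Cell H) : Dh (-H) (pF H g) = 1 := g.2.choose_spec.choose_spec.1

theorem pF_mul_rF (H : Mat N) (g : Cell H) : (pF H g : GL (Fin N) ℝ) * (rF H g : GL (Fin N) ℝ) = g :=
  g.2.choose_spec.choose_spec.2.symm

/-- **Continuity of the factors.** -/
theorem continuous_pF {H : Mat N} (hs : Hᵀ = H) : Continuous fun g : Cell H => (pF H g : GL (Fin N) ℝ) := by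
  obtain ⟨U, h, hU1, hU2, hH⟩ := exists_diag hs
  refine isEmbedding_val.continuous_iff.2 ?_
  have hc : Continuous fun A : Mat N => Uᵀ * A * U := by fun_prop
  have hc' : Continuous fun A : Mat N => U * A * Uᵀ := by fun_prop
  have hcg : Continuous fun g : Cell H => Uᵀ * ((g : GL (Fin N) ℝ) : Mat N) * U :=
    hc.comp (Units.continuous_val.comp continuous_subtype_val)
  have h1 : Continuous fun g : Cell H => U * Pf h (Uᵀ * ((g : GL (Fin N) ℝ) : Mat N) * U) * Uᵀ := by
    refine hc'.comp ?_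
    exact (continuousOn_Pf h).comp_continuous hcg fun g => (cell_iff hU1 hU2 hH).1 g.2
  refine h1.congr fun g => ?_
  show _ = ((pF H g : GL (Fin N) ℝ) : Mat N)
  -- the same construction as in `cell_iff`
  have hm := (cell_iff hU1 hU2 hH).1 g.2
  have hlow := (low_iff hU1 hU2 hH (g := (pF H g : GL (Fin N) ℝ))).1 ⟨(pF H g).2, pF_Dh H g⟩
  have hup := (mem_Pg_iff hU1 hU2 hH).1 (rF H g).2
  have hup' := (mem_Pg_iff hU1 hU2 hH).1 ((Pg H).inv_mem (rF H g).2)
  set A := Uᵀ * ((g : GL (Fin N) ℝ) : Mat N) * U with hA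
  set P := Uᵀ * ((pF H g : GL (Fin N) ℝ) : Mat N) * U with hP
  set S := Uᵀ * (((rF H g : GL (Fin N) ℝ)⁻¹ : GL (Fin N) ℝ) : Mat N) * U with hS
  have hAS : A * S = P := by
    have e1 : ((g : GL (Fin N) ℝ) : Mat N) * (((rF H g : GL (Fin N) ℝ)⁻¹ : GL (Fin N) ℝ) : Mat N) =
        ((pF H g : GL (Fin N) ℝ) : Mat N) := by
      rw [← Units.val_mul, ← pF_mul_rF H g, mul_assoc, mul_inv_cancel, mul_one]
    calc A * S = Uᵀ * ((g : GL (Fin N) ℝ) : Mat N) * (U * Uᵀ) * (((rF H g : GL (Fin N) ℝ)⁻¹ : GL (Fin N) ℝ) : Mat N) * U := by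
          rw [hA, hS]
          simp only [mul_assoc]
      _ = P := by rw [hU2, mul_one, mul_assoc Uᵀ, e1]
  -- the columns of `S` solve the equations of the columns of `Wf`
  have hW : Wf h A = S := by
    ext i j
    have hdet := mnr_ne.1 hm j
    have h2 : Mc h (h j) A *ᵥ (fun k => S k j) = fun i => (1 : Mat N) i j := by
      funext i
      show ∑ k, Mc h (h j) A i k * S k j = (1 : Mat N) i j
      by_cases hi : h j ≤ h i
      · rw [← hlow i j hi, ← hAS, mul_apply]
        refine Finset.sum_congr rfl fun k _ => ?_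
        by_cases hk : h j ≤ h k
        · rw [Mc_apply, if_pos ⟨hi, hk⟩]
        · rw [hup' k j (not_le.1 hk), mul_zero, mul_zero]
      · have h3 : ∀ k, Mc h (h j) A i k = if i = k then 1 else 0 := fun k => by
          rw [Mc_apply, if_neg (fun h' => hi h'.1)]
        simp only [h3, ite_mul, one_mul, zero_mul, Finset.sum_ite_eq, Finset.mem_univ, if_true]
        rw [hup' i j (not_le.1 hi), one_apply_ne]
        rintro rfl
        exact hi le_rfl
    have h4 : (fun k => S k j) = (Mc h (h j) A)⁻¹ *ᵥ fun i => (1 : Mat N) i j := by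
      rw [← h2, mulVec_mulVec, nonsing_inv_mul _ (isUnit_iff_ne_zero.2 hdet), one_mulVec]
    have h5 := congrFun h4 i
    rw [Wf_apply, h5]
    show _ = ∑ k, (Mc h (h j) A)⁻¹ i k * (1 : Mat N) k j
    rw [← mul_apply, mul_one]
  show U * Pf h A * Uᵀ = _
  rw [Pf, hW, hAS, hP]
  exact back hU2 _

theorem continuous_rF {H : Mat N} (hs : Hᵀ = H) : Continuous fun g : Cell H => (rF H g : GL (Fin N) ℝ) := by
  have h1 : (fun g : Cell H => (rF H g : GL (Fin N) ℝ)) = fun g : Cell H => (pF H g : GL (Fin N) ℝ)⁻¹ * (g : GL (Fin N) ℝ) := by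
    funext g
    rw [eq_inv_mul_iff_mul_eq, pF_mul_rF]
  rw [h1]
  exact (continuous_pF hs).inv.mul continuous_subtype_val

end Pool.Agent.Helper2.FQ
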