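import Pool.Agent.Helper2.FQ.Cell
import Pool.Agent.Helper35.TZ.Conn

/-!
# Project FQ (MP_0f6f3f_an), sources: the factors of an automorphism in the big cell are automorphisms

`psh b g x y = g [g⁻¹ x, g⁻¹ y]`. If `g = p r` is an automorphism then `psh r = psh p⁻¹`; conjugate by `a_t` and let `t → ± ∞`: in the eigenbasis of `H` the coordinates are
`e^{tw} β`, convergent at both ends, so `psh r` is the bracket (`upper_aut`). `mem_autC_of_lim`: an automorphism `p` with `a_t⁻¹ p a_t → 1` is in the identity component.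
-/

set_option autoImplicit false

open Matrix Filter Topology

namespace Pool.Agent.Helper2.FQ

open Pool.Agent.Helper96.SA Pool.Agent.Helper46.FQ Pool.Agent.Helper96.TO Pool.Agent.Helper35.TZ

variable {N : ℕ}

/-- two limits of exponentials -/
theorem two_lim {w β γ₁ γ₂ : ℝ} (h1 : Tendsto (fun t : ℝ => Real.exp (t * w) * β) atTop (𝓝 γ₁))
    (h2 : Tendsto (fun t : ℝ => Real.exp (-t * w) * β) atTop (𝓝 γ₂)) : β = γ₂ := by
  rcases lt_trichotomy w 0 with hw | hw | hw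
  · have h3 : Tendsto (fun t : ℝ => Real.exp (t * w)) atTop (𝓝 0) :=
      Real.tendsto_exp_atBot.comp (tendsto_id.atTop_mul_const_of_neg hw)
    have h4 := h3.mul h2
    rw [zero_mul] at h4
    have h5 : (fun t : ℝ => Real.exp (t * w) * (Real.exp (-t * w) * β)) = fun _ => β := by
      funext t
      rw [← mul_assoc, ← Real.exp_add]
      have : t * w + -t * w = 0 := by ring
      rw [this, Real.exp_zero, one_mul]
    rw [h5] at h4
    have hβ : β = 0 := tendsto_nhds_unique tendsto_const_nhds h4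
    rw [hβ] at h2 ⊢
    simp only [mul_zero] at h2
    exact tendsto_nhds_unique tendsto_const_nhds h2
  · rw [hw] at h2
    simp only [mul_zero, Real.exp_zero, one_mul] at h2
    exact tendsto_nhds_unique tendsto_const_nhds h2
  · have h3 : Tendsto (fun t : ℝ => Real.exp (-t * w)) atTop (𝓝 0) := by
      refine Real.tendsto_exp_atBot.comp ?_
      have h : Tendsto (fun t : ℝ => t * -w) atTop atBot := tendsto_id.atTop_mul_const_of_neg (by linarith)
      refine h.congr fun t => ?_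
      ring
    have h4 := h3.mul h1
    rw [zero_mul] at h4
    have h5 : (fun t : ℝ => Real.exp (-t * w) * (Real.exp (t * w) * β)) = fun _ => β := by
      funext t
      rw [← mul_assoc, ← Real.exp_add]
      have : -t * w + t * w = 0 := by ring
      rw [this, Real.exp_zero, one_mul]
    rw [h5] at h4
    have hβ : β = 0 := tendsto_nhds_unique tendsto_const_nhds h4
    rw [hβ] at h2 ⊢
    simp only [mul_zero] at h2
    exact tendsto_nhds_unique tendsto_const_nhds h2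

variable {L : Type} [LieRing L] [LieAlgebra ℝ L]

/-- the image of the bracket -/
noncomputable def psh (b : Module.Basis (Fin N) ℝ L) (g : GL (Fin N) ℝ) (x y : L) : L :=
  toLin b b (g : Mat N) ⁅toLin b b ((g⁻¹ : GL (Fin N) ℝ) : Mat N) x, toLin b b ((g⁻¹ : GL (Fin N) ℝ) : Mat N) y⁆

variable {b : Module.Basis (Fin N) ℝ L}

theorem toLin_val_mul (g h : GL (Fin N) ℝ) (x : L) :
    toLin b b ((g * h : GL (Fin N) ℝ) : Mat N) x = toLin b b (g : Mat N) (toLin b b (h : Mat N) x) := by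
  rw [Units.val_mul, toLin_mul b b b]
  rfl

theorem toLin_inv_self (g : GL (Fin N) ℝ) (x : L) :
    toLin b b ((g⁻¹ : GL (Fin N) ℝ) : Mat N) (toLin b b (g : Mat N) x) = x := by
  rw [← toLin_val_mul, inv_mul_cancel, Units.val_one, toLin_one]
  rfl

theorem toLin_self_inv (g : GL (Fin N) ℝ) (x : L) :
    toLin b b (g : Mat N) (toLin b b ((g⁻¹ : GL (Fin N) ℝ) : Mat N) x) = x := by
  rw [← toLin_val_mul, mul_inv_cancel, Units.val_one, toLin_one]
  rfl

theorem psh_eq_iff {g : GL (Fin N) ℝ} : g ∈ autG b ↔ ∀ x y : L, psh b g x y = ⁅x, y⁆ := by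
  constructor
  · intro h x y
    have h1 : toLin b b (g : Mat N) ⁅toLin b b ((g⁻¹ : GL (Fin N) ℝ) : Mat N) x, toLin b b ((g⁻¹ : GL (Fin N) ℝ) : Mat N) y⁆ = _ := h _ _
    rw [toLin_self_inv, toLin_self_inv] at h1
    exact h1
  · intro h x y
    have h1 := h (toLin b b (g : Mat N) x) (toLin b b (g : Mat N) y)
    unfold psh at h1
    rw [toLin_inv_self, toLin_inv_self] at h1
    exact h1

theorem psh_mul (g h : GL (Fin N) ℝ) (x y : L) : psh b (g * h) x y =
    toLin b b (g : Mat N) (psh b h (toLin b b ((g⁻¹ : GL (Fin N) ℝ) : Mat N) x) (toLin b b ((g⁻¹ : GL (Fin N) ℝ) : Mat N) y)) := by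
  unfold psh
  rw [_root_.mul_inv_rev, toLin_val_mul, toLin_val_mul, toLin_val_mul]

theorem psh_mul_aut (g : GL (Fin N) ℝ) {a : GL (Fin N) ℝ} (ha : a ∈ autG b) (x y : L) : psh b (g * a) x y = psh b g x y := by
  rw [psh_mul, psh_eq_iff.1 ha]
  rfl

theorem continuous_psh (b : Module.Basis (Fin N) ℝ L) (ξ : L →ₗ[ℝ] ℝ) (x y : L) :
    Continuous fun g : GL (Fin N) ℝ => ξ (psh b g x y) := by
  have hlin : ∀ (η : L →ₗ[ℝ] ℝ) (z : L), Continuous fun A : Mat N => η (toLin b b A z) := by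
    intro η z
    let φ : Mat N →ₗ[ℝ] ℝ := η ∘ₗ (LinearMap.applyₗ z) ∘ₗ (toLin b b).toLinearMap
    exact φ.continuous_of_finiteDimensional
  have h1 : ∀ u v : L, ⁅u, v⁆ = ∑ a, ∑ c, (b.repr u a * b.repr v c) • ⁅b a, b c⁆ := by
    intro u v
    conv_lhs => rw [← b.sum_repr u, ← b.sum_repr v]
    rw [sum_lie_sum]
    refine Finset.sum_congr rfl fun a _ => Finset.sum_congr rfl fun c _ => ?_
    rw [smul_lie, lie_smul, smul_smul]
  have h2 : (fun g : GL (Fin N) ℝ => ξ (psh b g x y)) = fun g : GL (Fin N) ℝ => ∑ a, ∑ c,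
      (b.repr (toLin b b ((g⁻¹ : GL (Fin N) ℝ) : Mat N) x) a * b.repr (toLin b b ((g⁻¹ : GL (Fin N) ℝ) : Mat N) y) c) *
        ξ (toLin b b (g : Mat N) ⁅b a, b c⁆) := by
    funext g
    unfold psh
    rw [h1]
    simp only [map_sum, map_smul, smul_eq_mul]
  rw [h2]
  have hinv : Continuous fun g : GL (Fin N) ℝ => ((g⁻¹ : GL (Fin N) ℝ) : Mat N) := Units.continuous_val.comp continuous_inv
  refine continuous_finsetSum _ fun a _ => continuous_finsetSum _ fun c _ => ?_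
  refine ((?_ : Continuous _).mul ?_).mul ?_
  · exact (hlin (b.coord a) x).comp hinv
  · exact (hlin (b.coord c) y).comp hinv
  · exact (hlin ξ _).comp Units.continuous_val

/-! ### The eigenbasis -/

/-- the orthonormal eigenbasis -/
noncomputable def eB (b : Module.Basis (Fin N) ℝ L) {U : Mat N} (hU1 : Uᵀ * U = 1) (hU2 : U * Uᵀ = 1) :
    Module.Basis (Fin N) ℝ L :=
  b.map (LinearEquiv.ofLinearMap (toLin b b U) (toLin b b Uᵀ)
    (by rw [← toLin_mul b b b, hU2, toLin_one]) (by rw [← toLin_mul b b b, hU1, toLin_one]))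

theorem eB_apply {U : Mat N} (hU1 : Uᵀ * U = 1) (hU2 : U * Uᵀ = 1) (i : Fin N) : eB b hU1 hU2 i = toLin b b U (b i) := rfl

theorem toLin_eB {U : Mat N} (hU1 : Uᵀ * U = 1) (hU2 : U * Uᵀ = 1) (d : Fin N → ℝ) (i : Fin N) :
    toLin b b (U * diagonal d * Uᵀ) (eB b hU1 hU2 i) = d i • eB b hU1 hU2 i := by
  rw [eB_apply, ← LinearMap.comp_apply, ← toLin_mul b b b, mul_assoc, hU1, mul_one, toLin_mul b b b, LinearMap.comp_apply]
  have h1 : toLin b b (diagonal d) (b i) = d i • b i := by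
    rw [toLin_self]
    rw [Finset.sum_eq_single i]
    · rw [diagonal_apply_eq]
    · intro j _ hj
      rw [diagonal_apply_ne _ hj, zero_smul]
    · intro h
      exact absurd (Finset.mem_univ _) h
  rw [h1, map_smul]

theorem ex_diag {H U : Mat N} {h : Fin N → ℝ} (hU1 : Uᵀ * U = 1) (hU2 : U * Uᵀ = 1) (hH : H = U * diagonal h * Uᵀ) (s : ℝ) :
    (ex (s • H) : Mat N) = U * diagonal (fun i => Real.exp (s * h i)) * Uᵀ := by
  have hsm : s • H = U * diagonal (fun i => s * h i) * Uᵀ := by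
    rw [hH, ← smul_mul_assoc, ← mul_smul_comm, ← diagonal_smul]
    rfl
  rw [ex_coe, hsm, exp_diag U hU1 hU2]

theorem ex_eB {H U : Mat N} {h : Fin N → ℝ} (hU1 : Uᵀ * U = 1) (hU2 : U * Uᵀ = 1) (hH : H = U * diagonal h * Uᵀ) (s : ℝ)
    (i : Fin N) : toLin b b (ex (s • H) : Mat N) (eB b hU1 hU2 i) = Real.exp (s * h i) • eB b hU1 hU2 i := by
  rw [ex_diag hU1 hU2 hH, toLin_eB]

theorem repr_ex {H U : Mat N} {h : Fin N → ℝ} (hU1 : Uᵀ * U = 1) (hU2 : U * Uᵀ = 1) (hH : H = U * diagonal h * Uᵀ) (s : ℝ)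
    (z : L) (k : Fin N) : (eB b hU1 hU2).repr (toLin b b (ex (s • H) : Mat N) z) k =
      Real.exp (s * h k) * (eB b hU1 hU2).repr z k := by
  conv_lhs => rw [← (eB b hU1 hU2).sum_repr z]
  rw [map_sum]
  simp only [map_smul, ex_eB hU1 hU2 hH]
  rw [map_sum, Finset.sum_apply']
  rw [Finset.sum_eq_single k]
  · rw [map_smul, map_smul, Module.Basis.repr_self, Finsupp.smul_apply, Finsupp.smul_apply, Finsupp.single_eq_same,
      smul_eq_mul, smul_eq_mul, mul_one]
    ring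
  · intro j _ hj
    rw [map_smul, map_smul, Module.Basis.repr_self, Finsupp.smul_apply, Finsupp.smul_apply,
      Finsupp.single_eq_of_ne (Ne.symm hj), smul_zero, smul_zero]
  · intro h'
    exact absurd (Finset.mem_univ _) h'

/-- conjugation by `a_t` -/
theorem psh_cj {H U : Mat N} {h : Fin N → ℝ} (hU1 : Uᵀ * U = 1) (hU2 : U * Uᵀ = 1) (hH : H = U * diagonal h * Uᵀ)
    (ha : ∀ t : ℝ, ex (t • H) ∈ autG b) (t : ℝ) (g : GL (Fin N) ℝ) (i j k : Fin N) :
    (eB b hU1 hU2).repr (psh b (cj H t g) (eB b hU1 hU2 i) (eB b hU1 hU2 j)) k =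
      Real.exp (t * (h i + h j - h k)) * (eB b hU1 hU2).repr (psh b g (eB b hU1 hU2 i) (eB b hU1 hU2 j)) k := by
  have e1 : ((ex (t • H))⁻¹ : GL (Fin N) ℝ) = ex ((-t) • H) := by rw [neg_smul, ex_neg]
  unfold cj
  rw [psh_mul_aut _ (ha t), psh_mul, e1]
  have e2 : ((ex ((-t) • H))⁻¹ : GL (Fin N) ℝ) = ex (t • H) := by rw [neg_smul, ex_neg, inv_inv]
  rw [e2, ex_eB hU1 hU2 hH, ex_eB hU1 hU2 hH, repr_ex hU1 hU2 hH]
  have e3 : psh b g (Real.exp (t * h i) • eB b hU1 hU2 i) (Real.exp (t * h j) • eB b hU1 hU2 j) =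
      (Real.exp (t * h i) * Real.exp (t * h j)) • psh b g (eB b hU1 hU2 i) (eB b hU1 hU2 j) := by
    unfold psh
    rw [map_smul, map_smul, smul_lie, lie_smul, smul_smul, map_smul]
  rw [e3, map_smul, Finsupp.smul_apply, smul_eq_mul, ← mul_assoc, ← Real.exp_add, ← Real.exp_add]
  congr 2
  ring

theorem psh_bilin {e : Module.Basis (Fin N) ℝ L} {g : GL (Fin N) ℝ} (h : ∀ i j, psh b g (e i) (e j) = ⁅e i, e j⁆) (x y : L) :
    psh b g x y = ⁅x, y⁆ := by
  conv_rhs => rw [← e.sum_repr x, ← e.sum_repr y]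
  conv_lhs => rw [← e.sum_repr x, ← e.sum_repr y]
  unfold psh
  rw [map_sum, map_sum, sum_lie_sum, map_sum, sum_lie_sum]
  refine Finset.sum_congr rfl fun a _ => ?_
  rw [map_sum]
  refine Finset.sum_congr rfl fun c _ => ?_
  rw [map_smul, map_smul, smul_lie, lie_smul, smul_lie, lie_smul, map_smul, map_smul]
  have := h a c
  unfold psh at this
  rw [this]

/-- **The upper factor of an automorphism is an automorphism.** -/
theorem upper_aut {H : Mat N} (hs : Hᵀ = H) (hL : H ∈ lie (autG b)) {p : Pg (-H)} {r : Pg H} (hp : Dh (-H) p = 1)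
    (hg : (p : GL (Fin N) ℝ) * (r : GL (Fin N) ℝ) ∈ autG b) : (r : GL (Fin N) ℝ) ∈ autG b := by
  obtain ⟨U, h, hU1, hU2, hH⟩ := exists_diag hs
  have ha : ∀ t : ℝ, ex (t • H) ∈ autG b := mem_lie.1 hL
  have e1 : ∀ x y : L, psh b (r : GL (Fin N) ℝ) x y = psh b ((p : GL (Fin N) ℝ)⁻¹) x y := by
    intro x y
    have e2 : (r : GL (Fin N) ℝ) = (p : GL (Fin N) ℝ)⁻¹ * ((p : GL (Fin N) ℝ) * (r : GL (Fin N) ℝ)) := by group
    rw [e2, psh_mul_aut _ hg]
  rw [psh_eq_iff]
  refine psh_bilin (e := eB b hU1 hU2) fun i j => ?_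
  apply (eB b hU1 hU2).repr.injective
  ext k
  have hc := continuous_psh b ((eB b hU1 hU2).coord k) (eB b hU1 hU2 i) (eB b hU1 hU2 j)
  have h1 : Tendsto (fun t : ℝ => Real.exp (t * (h i + h j - h k)) *
      (eB b hU1 hU2).repr (psh b (r : GL (Fin N) ℝ) (eB b hU1 hU2 i) (eB b hU1 hU2 j)) k) atTop
      (𝓝 ((eB b hU1 hU2).coord k (psh b (Dh H r) (eB b hU1 hU2 i) (eB b hU1 hU2 j)))) := by
    refine ((hc.tendsto _).comp (Dh_spec H r)).congr fun t => ?_
    exact psh_cj hU1 hU2 hH ha t _ i j k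
  have h2 : Tendsto (fun t : ℝ => Real.exp (-t * (h i + h j - h k)) *
      (eB b hU1 hU2).repr (psh b (r : GL (Fin N) ℝ) (eB b hU1 hU2 i) (eB b hU1 hU2 j)) k) atTop
      (𝓝 ((eB b hU1 hU2).coord k (psh b (1 : GL (Fin N) ℝ) (eB b hU1 hU2 i) (eB b hU1 hU2 j)))) := by
    have h3 := Dh_spec (-H) p⁻¹
    rw [map_inv, hp, inv_one] at h3
    refine ((hc.tendsto _).comp h3).congr fun t => ?_
    have h4 : cj (-H) t ((p⁻¹ : Pg (-H)) : GL (Fin N) ℝ) = cj H (-t) ((p : GL (Fin N) ℝ)⁻¹) := by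
      show cj (-H) t ((p : GL (Fin N) ℝ)⁻¹) = _
      unfold cj
      rw [smul_neg, neg_smul]
    show (eB b hU1 hU2).repr (psh b (cj (-H) t ((p⁻¹ : Pg (-H)) : GL (Fin N) ℝ)) _ _) k = _
    rw [h4, psh_cj hU1 hU2 hH ha, e1]
  rw [two_lim h1 h2]
  show (eB b hU1 hU2).repr (psh b (1 : GL (Fin N) ℝ) (eB b hU1 hU2 i) (eB b hU1 hU2 j)) k = _
  rw [psh_eq_iff.1 (one_mem (autG b))]

theorem lower_aut {H : Mat N} (hs : Hᵀ = H) (hL : H ∈ lie (autG b)) {p : Pg (-H)} {r : Pg H} (hp : Dh (-H) p = 1)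
    (hg : (p : GL (Fin N) ℝ) * (r : GL (Fin N) ℝ) ∈ autG b) : (p : GL (Fin N) ℝ) ∈ autG b := by
  have h1 := (autG b).mul_mem hg ((autG b).inv_mem (upper_aut hs hL hp hg))
  rwa [mul_assoc, mul_inv_cancel, mul_one] at h1

/-! ### The identity component -/

theorem autC_le (b : Module.Basis (Fin N) ℝ L) : autC b ≤ autG b := by
  rintro _ ⟨k, -, rfl⟩
  exact k.2

/-- an automorphism which is contracted to `1` is in the identity component -/
theorem mem_autC_of_lim {H : Mat N} (hL : H ∈ lie (autG b)) {p : Pg H} (hp : Dh H p = 1)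
    (hg : (p : GL (Fin N) ℝ) ∈ autG b) : (p : GL (Fin N) ℝ) ∈ autC b := by
  let c : ℝ → autG b := fun t => ⟨cj H t (p : GL (Fin N) ℝ), cj_mem hL t hg⟩
  have hc : Continuous c := by
    refine Continuous.subtype_mk ?_ _
    have h1 : Continuous fun t : ℝ => ex (t • H) := continuous_ex.comp (continuous_id.smul continuous_const)
    exact (h1.inv.mul continuous_const).mul h1
  have h0 : c 0 = ⟨(p : GL (Fin N) ℝ), hg⟩ := Subtype.ext (cj_zero H _)
  have hlim : Tendsto c atTop (𝓝 1) := by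
    rw [tendsto_subtype_rng]
    have h1 := Dh_spec H p
    rw [hp] at h1
    exact h1
  have hmem : ∀ t, c t ∈ connectedComponent (c 0) := by
    intro t
    have h1 : IsPreconnected (Set.range c) := isPreconnected_range hc
    exact h1.subset_connectedComponent ⟨0, rfl⟩ ⟨t, rfl⟩
  have h1 : (1 : autG b) ∈ connectedComponent (c 0) :=
    isClosed_connectedComponent.mem_of_tendsto hlim (Eventually.of_forall hmem)
  have h2 : c 0 ∈ connectedComponent (1 : autG b) := by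
    rw [← connectedComponent_eq h1]
    exact mem_connectedComponent
  rw [h0] at h2
  exact ⟨⟨(p : GL (Fin N) ℝ), hg⟩, h2, rfl⟩

/-- the three factors of an element of the identity component -/
theorem factors_autC {H : Mat N} (hs : Hᵀ = H) (hL : H ∈ lie (autG b)) {p : Pg (-H)} {r : Pg H} (hp : Dh (-H) p = 1)
    (hg : (p : GL (Fin N) ℝ) * (r : GL (Fin N) ℝ) ∈ autC b) : (p : GL (Fin N) ℝ) ∈ autC b ∧ Dh H r ∈ autC b ∧
      (Dh H r)⁻¹ * (r : GL (Fin N) ℝ) ∈ autC b := by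
  have hgG := autC_le b hg
  have hLn : -H ∈ lie (autG b) := by
    rw [mem_lie] at hL ⊢
    intro t
    have := hL (-t)
    rwa [neg_smul, ← smul_neg] at this
  have h1 : (p : GL (Fin N) ℝ) ∈ autC b := mem_autC_of_lim hLn hp (lower_aut hs hL hp hgG)
  have h2 : (r : GL (Fin N) ℝ) ∈ autC b := by
    have := (autC b).mul_mem ((autC b).inv_mem h1) hg
    rwa [← mul_assoc, inv_mul_cancel, one_mul] at this
  have h3 : Dh H r ∈ autG b := Dh_mem (Pool.Agent.Helper66.BD.isClosed_autG b) hL (autC_le b h2)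
  have h4 : (Dh H r)⁻¹ * (r : GL (Fin N) ℝ) ∈ autC b := by
    have h5 : (((⟨Dh H r, Dh_mem_Pg H r⟩ : Pg H)⁻¹ * r : Pg H) : GL (Fin N) ℝ) ∈ autC b := by
      refine mem_autC_of_lim hL ?_ ?_
      · rw [map_mul, map_inv, Dh_Dh, inv_mul_cancel]
      · exact (autG b).mul_mem ((autG b).inv_mem h3) (autC_le b h2)
    exact h5
  refine ⟨h1, ?_, h4⟩
  have := (autC b).mul_mem h2 ((autC b).inv_mem h4)
  rw [_root_.mul_inv_rev, inv_inv, ← mul_assoc, mul_inv_cancel, one_mul] at this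
  exact this

end Pool.Agent.Helper2.FQ
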