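import Pool.Agent.Helper2.FQ.CellAut

/-!
# Project FQ (MP_0f6f3f_an), sources: the clause `cell` of the group data

`a t = exp(tH)`, `ρ` a representation of `autC b`, orthogonal on the compact group `K`, `ρ (a t) = diag e^{(m - n i) t}`, `n 0 = 0 < n i` for `i ≠ 0`; the elements which fix the line of `e 0` are in `Pg H`.
`exists_KP`: `G = K P`. `mem_cell`: `ρ(g) 0 0 ≠ 0` implies `g ∈ Cell H` (`a t g = k p`, `|ρ(k) 0 0| → 1`, and `K` minus the cell is compact). `cell_clause`: the field `cell` of `GD`.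
-/

set_option autoImplicit false

open Matrix Filter Topology

namespace Pool.Agent.Helper2.FQ

open Pool.Agent.Helper96.SA Pool.Agent.Helper46.FQ Pool.Agent.Helper96.TO Pool.Agent.Helper35.TZ

variable {N : ℕ}

/-! ### Invariance of the cell -/

theorem cell_mul_Pg {H : Mat N} {g p : GL (Fin N) ℝ} (hg : g ∈ Cell H) (hp : p ∈ Pg H) : g * p ∈ Cell H := by
  obtain ⟨x, r, hx, rfl⟩ := hg
  exact ⟨x, r * ⟨p, hp⟩, hx, by rw [mul_assoc]; rfl⟩

theorem Pg_le_cell {H : Mat N} {p : GL (Fin N) ℝ} (hp : p ∈ Pg H) : p ∈ Cell H := by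
  have := cell_mul_Pg (one_mem_cell H) hp
  rwa [one_mul] at this

theorem comm_mul_cell {H : Mat N} {g l : GL (Fin N) ℝ} (hl : (l : Mat N) * H = H * (l : Mat N)) (hg : g ∈ Cell H) :
    l * g ∈ Cell H := by
  obtain ⟨x, r, hx, rfl⟩ := hg
  have hl' : (l : Mat N) * (-H) = (-H) * (l : Mat N) := by rw [mul_neg, neg_mul, hl]
  have hm : l ∈ Pg (-H) := mem_Pg_of_commute hl'
  have hm' : l ∈ Pg H := mem_Pg_of_commute hl
  refine ⟨⟨l, hm⟩ * x * (⟨l, hm⟩)⁻¹, ⟨l, hm'⟩ * r, ?_, ?_⟩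
  · rw [map_mul, map_mul, map_inv, hx, mul_one, mul_inv_cancel]
  · show l * ((x : GL (Fin N) ℝ) * (r : GL (Fin N) ℝ)) = (l * (x : GL (Fin N) ℝ) * l⁻¹) * (l * (r : GL (Fin N) ℝ))
    group

theorem ex_mul_cell {H : Mat N} {g : GL (Fin N) ℝ} (t : ℝ) : ex (t • H) * g ∈ Cell H ↔ g ∈ Cell H := by
  have hc : ∀ s : ℝ, ((ex (s • H) : GL (Fin N) ℝ) : Mat N) * H = H * ((ex (s • H) : GL (Fin N) ℝ) : Mat N) := by
    intro s
    rw [ex_coe]
    have h1 : Commute (s • H) H := (Commute.refl H).smul_left s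
    exact (h1.exp_left)
  constructor
  · intro h
    have h1 := comm_mul_cell (hc (-t)) h
    rwa [neg_smul, ex_neg, inv_mul_cancel_left] at h1
  · exact comm_mul_cell (hc t)

/-! ### Representations -/

variable {L : Type} [LieRing L] [LieAlgebra ℝ L] {b : Module.Basis (Fin N) ℝ L}

/-- the hypotheses of the clause -/
structure CH (b : Module.Basis (Fin N) ℝ L) (H : Mat N) (a : ℝ → autC b) (d : ℕ) (ρ : autC b →* Matrix (Fin (d + 1)) (Fin (d + 1)) ℝ)
    (K : Subgroup (autC b)) (m : ℝ) (n : Fin (d + 1) → ℝ) : Prop where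
  symm : Hᵀ = H
  lie : H ∈ lie (autG b)
  ha : ∀ t, ((a t : autC b) : GL (Fin N) ℝ) = ex (t • H)
  cont : Continuous ρ
  cpt : IsCompact (K : Set (autC b))
  orth : ∀ k ∈ K, (ρ k)ᵀ * ρ k = 1
  n0 : n 0 = 0
  npos : ∀ i, i ≠ 0 → 0 < n i
  ρa : ∀ t, ρ (a t) = diagonal fun i => Real.exp ((m - n i) * t)
  kak : ∀ g, ∃ k ∈ K, ∃ k' ∈ K, ∃ σ : Fin (d + 1) → ℝ, (∀ i, 0 ≤ σ i ∧ σ i ≤ σ 0) ∧ ρ g = ρ k * diagonal σ * ρ k'
  par : ∀ g : autC b, (∀ i, i ≠ 0 → ρ g i 0 = 0) → (g : GL (Fin N) ℝ) ∈ Pg H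

variable {H : Mat N} {a : ℝ → autC b} {d : ℕ} {ρ : autC b →* Matrix (Fin (d + 1)) (Fin (d + 1)) ℝ} {K : Subgroup (autC b)} {m : ℝ}
  {n : Fin (d + 1) → ℝ}

theorem CH.orth' (h : CH b H a d ρ K m n) {k : autC b} (hk : k ∈ K) : ρ k * (ρ k)ᵀ = 1 :=
  mul_eq_one_comm.1 (h.orth k hk)

/-- the first column of an orthogonal matrix is a unit vector -/
theorem CH.col (h : CH b H a d ρ K m n) {k : autC b} (hk : k ∈ K) : ∑ i, ρ k i 0 ^ 2 = 1 := by
  have h1 := congrFun (congrFun (h.orth k hk) 0) 0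
  rw [mul_apply, one_apply_eq] at h1
  rw [← h1]
  refine Finset.sum_congr rfl fun i _ => ?_
  rw [transpose_apply, sq]

/-- the set of the matrices with bounded singular values -/
def Tset (ρ : autC b →* Matrix (Fin (d + 1)) (Fin (d + 1)) ℝ) (K : Subgroup (autC b)) (R : ℝ) :
    Set (Matrix (Fin (d + 1)) (Fin (d + 1)) ℝ) :=
  (fun x : (autC b × autC b) × (Fin (d + 1) → ℝ) => ρ x.1.1 * diagonal x.2 * ρ x.1.2) ''
    (((K : Set (autC b)) ×ˢ (K : Set (autC b))) ×ˢ {σ | ∀ i, 0 ≤ σ i ∧ σ i ≤ σ 0 ∧ σ i ≤ R})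

theorem isCompact_Tset (h : CH b H a d ρ K m n) (R : ℝ) : IsCompact (Tset ρ K R) := by
  have h1 : IsCompact {σ : Fin (d + 1) → ℝ | ∀ i, 0 ≤ σ i ∧ σ i ≤ σ 0 ∧ σ i ≤ R} := by
    refine (isCompact_Icc (a := (0 : Fin (d + 1) → ℝ)) (b := fun _ => R)).of_isClosed_subset ?_ ?_
    · have : {σ : Fin (d + 1) → ℝ | ∀ i, 0 ≤ σ i ∧ σ i ≤ σ 0 ∧ σ i ≤ R} =
          ⋂ i, ({σ : Fin (d + 1) → ℝ | 0 ≤ σ i} ∩ ({σ | σ i ≤ σ 0} ∩ {σ | σ i ≤ R})) := by
        ext σ
        simp only [Set.mem_ofPred_eq, Set.mem_iInter, Set.mem_inter_iff]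
      rw [this]
      refine isClosed_iInter fun i => ?_
      exact (isClosed_le continuous_const (continuous_apply i)).inter
        ((isClosed_le (continuous_apply i) (continuous_apply 0)).inter (isClosed_le (continuous_apply i) continuous_const))
    · intro σ hσ
      exact ⟨fun i => (hσ i).1, fun i => (hσ i).2.2⟩
  refine (((h.cpt.prod h.cpt).prod h1)).image ?_
  have h2 : Continuous fun x : (autC b × autC b) × (Fin (d + 1) → ℝ) => ρ x.1.1 := h.cont.comp (continuous_fst.comp continuous_fst)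
  have h3 : Continuous fun x : (autC b × autC b) × (Fin (d + 1) → ℝ) => ρ x.1.2 := h.cont.comp (continuous_snd.comp continuous_fst)
  have h4 : Continuous fun x : (autC b × autC b) × (Fin (d + 1) → ℝ) => (diagonal x.2 : Matrix (Fin (d + 1)) (Fin (d + 1)) ℝ) :=
    continuous_snd.matrix_diagonal
  exact (h2.mul h4).mul h3

/-- the singular values are bounded by the entries -/
theorem sing_le (h : CH b H a d ρ K m n) {M : Matrix (Fin (d + 1)) (Fin (d + 1)) ℝ} {k k' : autC b} (hk : k ∈ K) (hk' : k' ∈ K)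
    {σ : Fin (d + 1) → ℝ} (hM : M = ρ k * diagonal σ * ρ k') : ∑ i, σ i ^ 2 = ∑ i, ∑ j, M i j ^ 2 := by
  have e1 : ∀ X : Matrix (Fin (d + 1)) (Fin (d + 1)) ℝ, ∑ i, ∑ j, X i j ^ 2 = (X * Xᵀ).trace := by
    intro X
    rw [trace]
    refine Finset.sum_congr rfl fun i _ => ?_
    rw [diag_apply, mul_apply]
    refine Finset.sum_congr rfl fun j _ => ?_
    rw [transpose_apply, sq]
  rw [e1, hM, transpose_mul, transpose_mul, diagonal_transpose]
  have e2 : ρ k * diagonal σ * ρ k' * ((ρ k')ᵀ * (diagonal σ * (ρ k)ᵀ)) = ρ k * (diagonal σ * diagonal σ * (ρ k)ᵀ) := by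
    calc ρ k * diagonal σ * ρ k' * ((ρ k')ᵀ * (diagonal σ * (ρ k)ᵀ))
        = ρ k * diagonal σ * (ρ k' * (ρ k')ᵀ) * (diagonal σ * (ρ k)ᵀ) := by simp only [mul_assoc]
      _ = _ := by rw [h.orth' hk', mul_one]; simp only [mul_assoc]
  rw [e2, trace_mul_comm, mul_assoc, h.orth k hk, mul_one, diagonal_mul_diagonal, trace_diagonal]
  refine Finset.sum_congr rfl fun i _ => ?_
  rw [sq]

/-- **`G = K P`.** -/
theorem exists_KP (h : CH b H a d ρ K m n) (g : autC b) : ∃ k ∈ K, ((k⁻¹ * g : autC b) : GL (Fin N) ℝ) ∈ Pg H := by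
  -- the normalised matrices
  let M : ℝ → Matrix (Fin (d + 1)) (Fin (d + 1)) ℝ := fun t => Real.exp (-(m * t)) • ρ (g * a t)
  let M0 : Matrix (Fin (d + 1)) (Fin (d + 1)) ℝ := Matrix.of fun i j => if j = 0 then ρ g i 0 else 0
  have hMt : Tendsto M atTop (𝓝 M0) := by
    refine tendsto_pi_nhds.2 fun i => tendsto_pi_nhds.2 fun j => ?_
    have e1 : (fun t => M t i j) = fun t => ρ g i j * Real.exp (-(n j * t)) := by
      funext t
      show (Real.exp (-(m * t)) • ρ (g * a t)) i j = _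
      rw [Matrix.smul_apply, map_mul, h.ρa, mul_diagonal, smul_eq_mul]
      have : Real.exp (-(n j * t)) = Real.exp (-(m * t)) * Real.exp ((m - n j) * t) := by
        rw [← Real.exp_add]
        congr 1
        ring
      rw [this]
      ring
    rw [e1]
    by_cases hj : j = 0
    · subst hj
      have e2 : M0 i 0 = ρ g i 0 := by
        show (if (0 : Fin (d + 1)) = 0 then ρ g i 0 else 0) = _
        rw [if_pos rfl]
      rw [e2]
      simp only [h.n0, zero_mul, neg_zero, Real.exp_zero, mul_one]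
      exact tendsto_const_nhds
    · have e2 : M0 i j = ρ g i j * 0 := by
        show (if j = 0 then ρ g i 0 else 0) = _
        rw [if_neg hj, mul_zero]
      rw [e2]
      refine Tendsto.const_mul _ ?_
      refine Real.tendsto_exp_neg_atTop_nhds_zero.comp ?_
      exact tendsto_id.const_mul_atTop (h.npos j hj)
  -- the column is not zero
  have hw : ∃ i, ρ g i 0 ≠ 0 := by
    by_contra hcon
    push Not at hcon
    have h1 : ρ g⁻¹ * ρ g = 1 := by rw [← map_mul, inv_mul_cancel, map_one]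
    have h2 := congrFun (congrFun h1 0) 0
    rw [mul_apply, one_apply_eq] at h2
    simp only [hcon, mul_zero, Finset.sum_const_zero] at h2
    exact zero_ne_one h2
  -- closedness
  have hmem : ∃ R, M0 ∈ Tset ρ K R := by
    have hS : Tendsto (fun t => ∑ i, ∑ j, M t i j ^ 2) atTop (𝓝 (∑ i, ∑ j, M0 i j ^ 2)) := by
      have hc : Continuous fun X : Matrix (Fin (d + 1)) (Fin (d + 1)) ℝ => ∑ i, ∑ j, X i j ^ 2 :=
        continuous_finsetSum _ fun i _ => continuous_finsetSum _ fun j _ => (continuous_id.matrix_elem i j).pow 2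
      exact (hc.tendsto _).comp hMt
    set S := ∑ i, ∑ j, M0 i j ^ 2
    have hS0 : 0 ≤ S := Finset.sum_nonneg fun i _ => Finset.sum_nonneg fun j _ => sq_nonneg _
    refine ⟨S + 1, (isCompact_Tset h _).isClosed.mem_of_tendsto hMt ?_⟩
    have h1 : ∀ᶠ t in atTop, ∑ i, ∑ j, M t i j ^ 2 < S + 1 := hS.eventually_lt_const (by linarith)
    filter_upwards [h1] with t ht
    obtain ⟨k, hk, k', hk', σ, hσ, hσ'⟩ := h.kak (g * a t)
    have e1 : M t = ρ k * diagonal (fun i => Real.exp (-(m * t)) * σ i) * ρ k' := by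
      show Real.exp (-(m * t)) • ρ (g * a t) = _
      have : (diagonal fun i => Real.exp (-(m * t)) * σ i) = Real.exp (-(m * t)) • diagonal σ := by
        rw [← diagonal_smul]
        rfl
      rw [this, hσ', Matrix.mul_smul, Matrix.smul_mul]
    have e2 := sing_le h hk hk' e1
    have hpos := Real.exp_pos (-(m * t))
    refine ⟨((k, k'), fun i => Real.exp (-(m * t)) * σ i), ⟨⟨hk, hk'⟩, fun i => ⟨?_, ?_, ?_⟩⟩, e1.symm⟩
    · exact mul_nonneg hpos.le (hσ i).1
    · exact mul_le_mul_of_nonneg_left (hσ i).2 hpos.le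
    · have h2 : (Real.exp (-(m * t)) * σ i) ^ 2 ≤ ∑ i, (Real.exp (-(m * t)) * σ i) ^ 2 :=
        Finset.single_le_sum (f := fun i => (Real.exp (-(m * t)) * σ i) ^ 2) (fun i _ => sq_nonneg _) (Finset.mem_univ i)
      have h3 : (Real.exp (-(m * t)) * σ i) ^ 2 < S + 1 := by linarith
      nlinarith [sq_nonneg (Real.exp (-(m * t)) * σ i - 1), mul_nonneg hpos.le (hσ i).1]
  obtain ⟨R, ⟨⟨k, k'⟩, σ⟩, ⟨⟨hk, hk'⟩, hσ⟩, hM0⟩ := hmem
  -- `M0 M0ᵀ = w wᵀ = ρ k S² (ρ k)ᵀ`
  have hk : k ∈ K := hk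
  have hk' : k' ∈ K := hk'
  have hM0' : ρ k * diagonal σ * ρ k' = M0 := hM0
  set z : Fin (d + 1) → ℝ := fun i => ∑ l, ρ k l i * ρ g l 0 with hz
  have hzz : ∀ i j, z i * z j = if i = j then σ i ^ 2 else 0 := by
    intro i j
    have e1 : M0 * M0ᵀ = ρ k * (diagonal σ * diagonal σ) * (ρ k)ᵀ := by
      rw [← hM0', transpose_mul, transpose_mul, diagonal_transpose]
      calc ρ k * diagonal σ * ρ k' * ((ρ k')ᵀ * (diagonal σ * (ρ k)ᵀ))
          = ρ k * diagonal σ * (ρ k' * (ρ k')ᵀ) * (diagonal σ * (ρ k)ᵀ) := by simp only [mul_assoc]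
        _ = _ := by rw [h.orth' hk', mul_one]; simp only [mul_assoc]
    have e2 : (ρ k)ᵀ * (M0 * M0ᵀ) * ρ k = diagonal σ * diagonal σ := by
      rw [e1]
      calc (ρ k)ᵀ * (ρ k * (diagonal σ * diagonal σ) * (ρ k)ᵀ) * ρ k
          = ((ρ k)ᵀ * ρ k) * (diagonal σ * diagonal σ) * ((ρ k)ᵀ * ρ k) := by simp only [mul_assoc]
        _ = _ := by rw [h.orth k hk, one_mul, mul_one]
    have e3 : ∀ l l', (M0 * M0ᵀ) l l' = ρ g l 0 * ρ g l' 0 := by
      intro l l'
      rw [mul_apply, Finset.sum_eq_single 0]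
      · show (if (0 : Fin (d + 1)) = 0 then ρ g l 0 else 0) * (if (0 : Fin (d + 1)) = 0 then ρ g l' 0 else 0) = _
        rw [if_pos rfl, if_pos rfl]
      · intro q _ hq
        show (if q = 0 then ρ g l 0 else 0) * _ = 0
        rw [if_neg hq, zero_mul]
      · intro h'
        exact absurd (Finset.mem_univ _) h'
    have e4 := congrFun (congrFun e2 i) j
    rw [diagonal_mul_diagonal, diagonal_apply] at e4
    rw [← sq] at e4
    rw [← e4, hz, mul_apply]
    show (∑ l, ρ k l i * ρ g l 0) * (∑ l, ρ k l j * ρ g l 0) = _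
    rw [Finset.mul_sum]
    refine Finset.sum_congr rfl fun l' _ => ?_
    rw [mul_apply, Finset.sum_mul, Finset.sum_mul]
    refine Finset.sum_congr rfl fun l _ => ?_
    rw [e3, transpose_apply]
    ring
  -- `z` is a multiple of the first vector
  have hz0 : ∀ i, i ≠ 0 → z i = 0 := by
    intro i hi
    by_contra hne
    have h1 := hzz i i
    rw [if_pos rfl] at h1
    have h2 : 0 < z i * z i := mul_self_pos.2 hne
    have hσi : 0 ≤ σ i := (hσ i).1
    have h3 : 0 < σ i := by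
      rcases lt_or_eq_of_le hσi with h4 | h4
      · exact h4
      · rw [h1, ← h4] at h2
        simp at h2
    have h4 : 0 < σ 0 := lt_of_lt_of_le h3 (hσ i).2.1
    have h5 := hzz 0 0
    rw [if_pos rfl] at h5
    have h6 : z 0 ≠ 0 := by
      intro h7
      rw [h7, mul_zero] at h5
      have : 0 < σ 0 ^ 2 := by positivity
      linarith
    have h7 := hzz i 0
    rw [if_neg hi] at h7
    exact (mul_ne_zero hne h6) h7
  refine ⟨k, hk, h.par _ fun i hi => ?_⟩
  have e1 : ρ (k⁻¹ * g) i 0 = z i := by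
    have e2 : ρ k⁻¹ = (ρ k)ᵀ := by
      have e3 : ρ k⁻¹ * ρ k = 1 := by rw [← map_mul, inv_mul_cancel, map_one]
      calc ρ k⁻¹ = ρ k⁻¹ * (ρ k * (ρ k)ᵀ) := by rw [h.orth' hk, mul_one]
        _ = (ρ k)ᵀ := by rw [← mul_assoc, e3, one_mul]
    rw [map_mul, e2, mul_apply]
    rfl
  rw [e1, hz0 i hi]

/-- elements of `P` act on the first vector by a scalar -/
theorem CH.Pg_col (h : CH b H a d ρ K m n) {p : autC b} (hp : (p : GL (Fin N) ℝ) ∈ Pg H) (i : Fin (d + 1)) (hi : i ≠ 0) :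
    ρ p i 0 = 0 := by
  -- `a (-t) p a t` converges
  have hp2 : (p : GL (Fin N) ℝ) ∈ Pg H := hp
  have hDC : Dh H ⟨(p : GL (Fin N) ℝ), hp⟩ ∈ autC b := by
    have h1 := (factors_autC (b := b) h.symm h.lie (p := 1) (r := ⟨(p : GL (Fin N) ℝ), hp⟩) (map_one _) (by
      show (1 : GL (Fin N) ℝ) * (p : GL (Fin N) ℝ) ∈ autC b
      rw [one_mul]
      exact p.2)).2.1
    exact h1
  have hlim : Tendsto (fun t : ℝ => a (-t) * p * a t) atTop (𝓝 (⟨_, hDC⟩ : autC b)) := by
    rw [tendsto_subtype_rng]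
    refine (Dh_spec H ⟨(p : GL (Fin N) ℝ), hp⟩).congr fun t => ?_
    show cj H t (p : GL (Fin N) ℝ) = ((a (-t) : autC b) : GL (Fin N) ℝ) * (p : GL (Fin N) ℝ) * ((a t : autC b) : GL (Fin N) ℝ)
    rw [h.ha, h.ha, neg_smul, ex_neg]
    rfl
  have h1 : Tendsto (fun t : ℝ => ρ (a (-t) * p * a t) i 0) atTop (𝓝 (ρ ⟨_, hDC⟩ i 0)) := by
    have hc : Continuous fun x : autC b => ρ x i 0 := h.cont.matrix_elem i 0
    exact (hc.tendsto _).comp hlim
  have h2 : (fun t : ℝ => ρ (a (-t) * p * a t) i 0) = fun t => Real.exp (n i * t) * ρ p i 0 := by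
    funext t
    rw [map_mul, map_mul, h.ρa, h.ρa, mul_diagonal, diagonal_mul]
    have : Real.exp (n i * t) = Real.exp ((m - n i) * -t) * Real.exp ((m - n 0) * t) := by
      rw [← Real.exp_add]
      congr 1
      rw [h.n0]
      ring
    rw [this]
    ring
  rw [h2] at h1
  have h3 : Tendsto (fun t : ℝ => Real.exp (-(n i * t))) atTop (𝓝 0) := by
    refine Real.tendsto_exp_neg_atTop_nhds_zero.comp ?_
    exact tendsto_id.const_mul_atTop (h.npos i hi)
  have h4 := h3.mul h1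
  rw [zero_mul] at h4
  have h5 : (fun t : ℝ => Real.exp (-(n i * t)) * (Real.exp (n i * t) * ρ p i 0)) = fun _ => ρ p i 0 := by
    funext t
    rw [← mul_assoc, ← Real.exp_add, neg_add_cancel, Real.exp_zero, one_mul]
  rw [h5] at h4
  exact tendsto_nhds_unique tendsto_const_nhds h4

/-- **If `ρ(g) 0 0 ≠ 0` then `g` is in the cell.** -/
theorem mem_cell (h : CH b H a d ρ K m n) {g : autC b} (hg : ρ g 0 0 ≠ 0) : (g : GL (Fin N) ℝ) ∈ Cell H := by
  -- the compact set `K` minus the cell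
  let Z : Set (autC b) := (K : Set (autC b)) ∩ {k | (k : GL (Fin N) ℝ) ∉ Cell H}
  have hZ : IsCompact Z := h.cpt.inter_right (isClosed_compl_iff.2 ((isOpen_cell h.symm).preimage continuous_subtype_val))
  have hZ1 : ∀ k ∈ Z, |ρ k 0 0| < 1 := by
    intro k hk
    by_contra hcon
    have h1 := h.col hk.1
    have h2 : ∀ i, i ≠ 0 → ρ k i 0 = 0 := by
      intro i hi
      have h3 : ρ k 0 0 ^ 2 + ρ k i 0 ^ 2 ≤ ∑ i, ρ k i 0 ^ 2 := by
        have h4 : ∑ j ∈ ({0, i} : Finset (Fin (d + 1))), ρ k j 0 ^ 2 ≤ ∑ j, ρ k j 0 ^ 2 :=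
          Finset.sum_le_sum_of_subset_of_nonneg (Finset.subset_univ _) fun j _ _ => sq_nonneg _
        rwa [Finset.sum_pair hi.symm] at h4
      have h4 : 1 ≤ ρ k 0 0 ^ 2 := by
        rw [← sq_abs]
        nlinarith [not_lt.1 hcon]
      have h5 : ρ k i 0 ^ 2 ≤ 0 := by linarith
      exact pow_eq_zero_iff (two_ne_zero) |>.1 (le_antisymm h5 (sq_nonneg _))
    exact hk.2 (Pg_le_cell (h.par k h2))
  have hZ2 : ∃ c < 1, ∀ k ∈ Z, |ρ k 0 0| ≤ c := by
    by_cases hne : Z.Nonempty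
    · have hc : Continuous fun x : autC b => |ρ x 0 0| := (h.cont.matrix_elem 0 0).abs
      obtain ⟨k0, hk0, hmax⟩ := hZ.exists_isMaxOn hne hc.continuousOn
      exact ⟨|ρ k0 0 0|, hZ1 k0 hk0, fun k hk => hmax hk⟩
    · exact ⟨0, one_pos, fun k hk => absurd ⟨k, hk⟩ hne⟩
  obtain ⟨c, hc1, hc⟩ := hZ2
  -- the first column of `a t g`
  let v : ℝ → Fin (d + 1) → ℝ := fun t i => Real.exp (-(n i * t)) * ρ g i 0
  have hv : Tendsto (fun t => (v t 0) ^ 2 / ∑ i, v t i ^ 2) atTop (𝓝 1) := by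
    have h1 : ∀ i, Tendsto (fun t => v t i) atTop (𝓝 (if i = 0 then ρ g 0 0 else 0)) := by
      intro i
      by_cases hi : i = 0
      · subst hi
        rw [if_pos rfl]
        show Tendsto (fun t => Real.exp (-(n 0 * t)) * ρ g 0 0) atTop _
        simp only [h.n0, zero_mul, neg_zero, Real.exp_zero, one_mul]
        exact tendsto_const_nhds
      · rw [if_neg hi]
        have h2 : Tendsto (fun t : ℝ => Real.exp (-(n i * t))) atTop (𝓝 0) := by
          refine Real.tendsto_exp_neg_atTop_nhds_zero.comp ?_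
          exact tendsto_id.const_mul_atTop (h.npos i hi)
        have h3 := h2.mul_const (ρ g i 0)
        rwa [zero_mul] at h3
    have h2 : Tendsto (fun t => ∑ i, v t i ^ 2) atTop (𝓝 (ρ g 0 0 ^ 2)) := by
      have h3 : Tendsto (fun t => ∑ i, v t i ^ 2) atTop (𝓝 (∑ i : Fin (d + 1), (if i = 0 then ρ g 0 0 else 0) ^ 2)) :=
        tendsto_finsetSum _ fun i _ => (h1 i).pow 2
      have h4 : ∑ i : Fin (d + 1), (if i = 0 then ρ g 0 0 else 0) ^ 2 = ρ g 0 0 ^ 2 := by
        rw [Finset.sum_eq_single 0]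
        · rw [if_pos rfl]
        · intro i _ hi
          rw [if_neg hi, zero_pow two_ne_zero]
        · intro h'
          exact absurd (Finset.mem_univ _) h'
      rwa [h4] at h3
    have h5 := ((h1 0).pow 2).div h2 (pow_ne_zero 2 hg)
    rw [if_pos rfl, div_self (pow_ne_zero 2 hg)] at h5
    exact h5
  have hc0 : c ^ 2 < 1 ∨ c < 0 := by
    rcases lt_or_ge c 0 with h' | h'
    · exact Or.inr h'
    · left
      nlinarith
  have hev : ∃ t, c < 0 ∨ c ^ 2 < (v t 0) ^ 2 / ∑ i, v t i ^ 2 := by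
    rcases hc0 with h' | h'
    · obtain ⟨t, ht⟩ := (hv.eventually_const_lt h').exists
      exact ⟨t, Or.inr ht⟩
    · exact ⟨0, Or.inl h'⟩
  obtain ⟨t, ht⟩ := hev
  obtain ⟨k, hk, hp⟩ := exists_KP h (a t * g)
  have hkC : (k : GL (Fin N) ℝ) ∈ Cell H := by
    by_contra hcon
    have h1 : |ρ k 0 0| ≤ c := hc k ⟨hk, hcon⟩
    rcases ht with ht | ht
    · linarith [abs_nonneg (ρ k 0 0)]
    · -- the first column of `ρ k` is proportional to the one of `ρ (a t g)`
      have h2 : ∀ i, ρ (a t * g) i 0 = ρ k i 0 * ρ (k⁻¹ * (a t * g)) 0 0 := by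
        intro i
        have h3 : a t * g = k * (k⁻¹ * (a t * g)) := by group
        conv_lhs => rw [h3, map_mul, mul_apply]
        rw [Finset.sum_eq_single 0]
        · intro j _ hj
          rw [h.Pg_col hp j hj, mul_zero]
        · intro h'
          exact absurd (Finset.mem_univ _) h'
      set lam := ρ (k⁻¹ * (a t * g)) 0 0
      have h3 : ∀ i, ρ (a t * g) i 0 = Real.exp (m * t) * v t i := by
        intro i
        rw [map_mul, h.ρa, diagonal_mul]
        show _ = Real.exp (m * t) * (Real.exp (-(n i * t)) * ρ g i 0)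
        rw [← mul_assoc, ← Real.exp_add]
        congr 2
        ring
      have h4 : ∑ i, v t i ^ 2 * Real.exp (m * t) ^ 2 = lam ^ 2 := by
        have h5 := h.col hk
        calc ∑ i, v t i ^ 2 * Real.exp (m * t) ^ 2 = ∑ i, (ρ k i 0 * lam) ^ 2 := by
              refine Finset.sum_congr rfl fun i _ => ?_
              rw [← h2, h3]
              ring
          _ = (∑ i, ρ k i 0 ^ 2) * lam ^ 2 := by
              rw [Finset.sum_mul]
              exact Finset.sum_congr rfl fun i _ => by ring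
          _ = lam ^ 2 := by rw [h5, one_mul]
      rw [← Finset.sum_mul] at h4
      have h5 : (v t 0) ^ 2 * Real.exp (m * t) ^ 2 = ρ k 0 0 ^ 2 * lam ^ 2 := by
        have := h2 0
        rw [h3] at this
        calc (v t 0) ^ 2 * Real.exp (m * t) ^ 2 = (Real.exp (m * t) * v t 0) ^ 2 := by ring
          _ = _ := by rw [this]; ring
      have hE : 0 < Real.exp (m * t) ^ 2 := by positivity
      have hv0 : v t 0 ≠ 0 := by
        show Real.exp (-(n 0 * t)) * ρ g 0 0 ≠ 0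
        exact mul_ne_zero (Real.exp_pos _).ne' hg
      have hS : 0 < ∑ i, v t i ^ 2 := by
        have h6 : v t 0 ^ 2 ≤ ∑ i, v t i ^ 2 :=
          Finset.single_le_sum (f := fun i => v t i ^ 2) (fun i _ => sq_nonneg _) (Finset.mem_univ 0)
        have h7 : 0 < v t 0 ^ 2 := by positivity
        linarith
      have h6 : (v t 0) ^ 2 / ∑ i, v t i ^ 2 = ρ k 0 0 ^ 2 := by
        rw [div_eq_iff hS.ne']
        have h7 : (v t 0) ^ 2 * Real.exp (m * t) ^ 2 = ρ k 0 0 ^ 2 * ((∑ i, v t i ^ 2) * Real.exp (m * t) ^ 2) := by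
          rw [h4, h5]
        have h8 : (v t 0 ^ 2 - ρ k 0 0 ^ 2 * ∑ i, v t i ^ 2) * Real.exp (m * t) ^ 2 = 0 := by
          rw [sub_mul, h7]
          ring
        rcases mul_eq_zero.1 h8 with h9 | h9
        · linarith
        · exact absurd h9 hE.ne'
      rw [h6] at ht
      have h7 : ρ k 0 0 ^ 2 ≤ c ^ 2 := by
        rw [← sq_abs (ρ k 0 0)]
        exact pow_le_pow_left₀ (abs_nonneg _) h1 2
      linarith
  have h1 : ((a t * g : autC b) : GL (Fin N) ℝ) ∈ Cell H := by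
    have h2 := cell_mul_Pg hkC hp
    have h3 : (k : GL (Fin N) ℝ) * ((k⁻¹ * (a t * g) : autC b) : GL (Fin N) ℝ) = ((a t * g : autC b) : GL (Fin N) ℝ) := by
      rw [← Subgroup.coe_mul]
      congr 1
      group
    rwa [h3] at h2
  rw [Subgroup.coe_mul, h.ha, ex_mul_cell] at h1
  exact h1

/-- **The field `cell` of the group data.** -/
theorem cell_clause (h : CH b H a d ρ K m n) (δ : ℝ) (hδ : 0 < δ) (B : Set (autC b)) (hB : IsCompact B) :
    ∃ B' : Set (autC b), IsCompact B' ∧ ∀ g ∈ B, δ ≤ |ρ g 0 0| → ∃ x ∈ B', ∃ l ∈ B', ∃ y ∈ B', g = x * l * y ∧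
      Tendsto (fun t : ℝ => a t * x * a (-t)) atTop (𝓝 1) ∧ (∀ t : ℝ, l * a t = a t * l) ∧
      Tendsto (fun t : ℝ => a (-t) * y * a t) atTop (𝓝 1) := by
  let C : Set (autC b) := B ∩ {g | δ ≤ |ρ g 0 0|}
  have hC : IsCompact C := hB.inter_right (isClosed_le continuous_const (h.cont.matrix_elem 0 0).abs)
  have hCm : ∀ g : C, ((g : autC b) : GL (Fin N) ℝ) ∈ Cell H := by
    intro g
    refine mem_cell h fun h0 => ?_
    have h1 : δ ≤ |ρ (g : autC b) 0 0| := g.2.2
    rw [h0, abs_zero] at h1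
    linarith
  have : CompactSpace C := isCompact_iff_compactSpace.1 hC
  let c : C → Cell H := fun g => ⟨((g : autC b) : GL (Fin N) ℝ), hCm g⟩
  have hcc : Continuous c := (continuous_subtype_val.comp continuous_subtype_val).subtype_mk _
  have hf : ∀ g : C, (pF H (c g) : GL (Fin N) ℝ) ∈ autC b ∧ Dh H (rF H (c g)) ∈ autC b ∧
      (Dh H (rF H (c g)))⁻¹ * (rF H (c g) : GL (Fin N) ℝ) ∈ autC b := by
    intro g
    refine factors_autC h.symm h.lie (pF_Dh H (c g)) ?_
    rw [pF_mul_rF]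
    exact (g : autC b).2
  let fx : C → autC b := fun g => ⟨_, (hf g).1⟩
  let fl : C → autC b := fun g => ⟨_, (hf g).2.1⟩
  let fy : C → autC b := fun g => ⟨_, (hf g).2.2⟩
  have hfx : Continuous fx := ((continuous_pF h.symm).comp hcc).subtype_mk _
  have hr : Continuous fun g : C => (rF H (c g) : GL (Fin N) ℝ) := (continuous_rF h.symm).comp hcc
  have hr' : Continuous fun g : C => rF H (c g) := hr.subtype_mk _
  have hl : Continuous fun g : C => Dh H (rF H (c g)) := (continuous_Dh h.symm).comp hr'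
  have hfl : Continuous fl := hl.subtype_mk _
  have hfy : Continuous fy := (hl.inv.mul hr).subtype_mk _
  refine ⟨Set.range fx ∪ Set.range fl ∪ Set.range fy, ((isCompact_range hfx).union (isCompact_range hfl)).union (isCompact_range hfy), ?_⟩
  intro g hg hδg
  let g' : C := ⟨g, hg, hδg⟩
  refine ⟨fx g', Or.inl (Or.inl ⟨g', rfl⟩), fl g', Or.inl (Or.inr ⟨g', rfl⟩), fy g', Or.inr ⟨g', rfl⟩, ?_, ?_, ?_, ?_⟩
  · apply Subtype.ext
    show (g : GL (Fin N) ℝ) = (pF H (c g') : GL (Fin N) ℝ) * Dh H (rF H (c g')) * ((Dh H (rF H (c g')))⁻¹ * (rF H (c g') : GL (Fin N) ℝ))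
    rw [mul_assoc, mul_inv_cancel_left, pF_mul_rF]
  · rw [tendsto_subtype_rng]
    have h1 := Dh_spec (-H) (pF H (c g'))
    rw [pF_Dh] at h1
    refine h1.congr fun t => ?_
    show cj (-H) t (pF H (c g') : GL (Fin N) ℝ) = ((a t : autC b) : GL (Fin N) ℝ) * (pF H (c g') : GL (Fin N) ℝ) * ((a (-t) : autC b) : GL (Fin N) ℝ)
    rw [h.ha, h.ha]
    unfold cj
    rw [smul_neg, ex_neg, inv_inv, neg_smul, ex_neg]
  · intro t
    apply Subtype.ext
    show Dh H (rF H (c g')) * ((a t : autC b) : GL (Fin N) ℝ) = ((a t : autC b) : GL (Fin N) ℝ) * Dh H (rF H (c g'))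
    rw [h.ha]
    exact Dh_commute_ex H _ t
  · rw [tendsto_subtype_rng]
    let y : Pg H := (⟨Dh H (rF H (c g')), Dh_mem_Pg H _⟩ : Pg H)⁻¹ * rF H (c g')
    have h1 := Dh_spec H y
    have h2 : Dh H y = 1 := by
      show Dh H ((⟨Dh H (rF H (c g')), Dh_mem_Pg H _⟩ : Pg H)⁻¹ * rF H (c g')) = 1
      rw [map_mul, map_inv, Dh_Dh, inv_mul_cancel]
    rw [h2] at h1
    refine h1.congr fun t => ?_
    show cj H t (y : GL (Fin N) ℝ) = ((a (-t) : autC b) : GL (Fin N) ℝ) * (y : GL (Fin N) ℝ) * ((a t : autC b) : GL (Fin N) ℝ)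
    rw [h.ha, h.ha, neg_smul, ex_neg]
    rfl

end Pool.Agent.Helper2.FQ
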